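import Pool.Agent.Helper5.UN.Goals
import Pool.Agent.Helper62.RO.MUL
import Pool.Agent.Helper45.RO.GRP
import Pool.Agent.Helper70.RO.AV

/-!
# Project UN (MP_a41896_nt): packet IND

Independent points and division of points in algebraically closed subfields.
-/

set_option autoImplicit false

namespace Pool.Agent.Helper31.UN

open WeierstrassCurve
open Pool.Agent.Helper29.BL Pool.Agent.Helper5.RO Pool.Agent.Helper5.UN
open Pool.Agent.Helper70.RO (LL mem_LL LL_closed)
open Pool.Agent.Helper62.RO (xRep_of_ne)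

/-- every element of an algebraically closed field is the `x`-coordinate of a point -/
theorem exists_point {Ω : Type} [Field Ω] [IsAlgClosed Ω] (W : Affine Ω) [W.IsElliptic] (x : Ω) :
    ∃ P : W.Point, P ≠ 0 ∧ xc P = x := by
  set p : Polynomial Ω := Polynomial.X ^ 2 + Polynomial.C (W.a₁ * x + W.a₃) * Polynomial.X -
    Polynomial.C (x ^ 3 + W.a₂ * x ^ 2 + W.a₄ * x + W.a₆) with hp
  have hdeg : p.degree = 2 := by
    rw [hp]
    compute_degree!
  obtain ⟨y, hy⟩ := IsAlgClosed.exists_root p (by rw [hdeg]; decide)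
  have h1 : W.Equation x y := by
    rw [Affine.equation_iff']
    have h2 : p.eval y = 0 := hy
    rw [hp] at h2
    simp only [Polynomial.eval_add, Polynomial.eval_sub, Polynomial.eval_mul, Polynomial.eval_pow,
      Polynomial.eval_X, Polynomial.eval_C] at h2
    linear_combination h2
  exact ⟨.some x y (Affine.equation_iff_nonsingular.mp h1), by rintro ⟨⟩, rfl⟩

theorem xc_neg' {F : Type} [Field F] [DecidableEq F] {W : Affine F} (P : W.Point) :
    xc (-P) = xc P := by
  rcases P with _ | ⟨x, y, h⟩ <;> rfl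

/-- part 2 for natural numbers -/
theorem div_nat {K Ω : Type} [Field K] [Field Ω] [DecidableEq Ω] [Algebra K Ω]
    [IsAlgClosed Ω] (W : Affine K) [W.IsElliptic] (W' : Affine Ω) (hW : W' = W.map (algebraMap K Ω))
    (L : IntermediateField K Ω) (hL : ∀ x : Ω, IsAlgebraic L x → x ∈ L) (m : ℕ) (hm : m ≠ 0)
    (P : W'.Point) (h : xc (m • P) ∈ L) : xc P ∈ L := by
  classical
  by_cases hP : P = 0
  · rw [hP]; exact L.zero_mem
  obtain ⟨A, B, hAB⟩ := Pool.Agent.Helper62.RO.gMUL K W m
  obtain ⟨σ, hσ, hA, hB⟩ := hAB.rep Ω (algebraMap K Ω) W' hW P hP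
  have hdegA : 1 ≤ A.natDegree := by
    rw [hAB.degA]
    exact Nat.one_le_pow _ _ (Nat.pos_of_ne_zero hm)
  apply hL
  by_cases hQ : m • P = 0
  · -- `B` vanishes at `x(P)`
    rw [hQ, Affine.Point.xRep_zero] at hB
    have hB0 : B.eval₂ (algebraMap K Ω) (xc P) = 0 := by
      rw [hB]; simp
    have hBne : B ≠ 0 := by
      intro hB1
      have hell : W'.IsElliptic := by rw [hW]; infer_instance
      have hAm : (A.map (algebraMap K Ω)).degree ≠ 0 := by
        intro h0
        rw [Polynomial.degree_map, Polynomial.degree_eq_natDegree hAB.monic.ne_zero] at h0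
        have h1 : A.natDegree = 0 := by exact_mod_cast h0
        omega
      obtain ⟨x', hx'⟩ := IsAlgClosed.exists_root _ hAm
      obtain ⟨Q, hQ0, hQx⟩ := exists_point W' x'
      obtain ⟨τ, hτ, hA', hB'⟩ := hAB.rep Ω (algebraMap K Ω) W' hW Q hQ0
      have h1 : A.eval₂ (algebraMap K Ω) (xc Q) = 0 := by
        rw [hQx, ← Polynomial.eval_map]; exact hx'
      rw [h1] at hA'
      rw [hB1, Polynomial.eval₂_zero] at hB'
      have h2 : (m • Q).xRep 0 = 0 := by
        rcases mul_eq_zero.mp hA'.symm with h3 | h3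
        · exact absurd h3 hτ
        · exact h3
      have h3 : (m • Q).xRep 1 = 0 := by
        rcases mul_eq_zero.mp hB'.symm with h3 | h3
        · exact absurd h3 hτ
        · exact h3
      apply Affine.Point.xRep_ne_zero (m • Q)
      funext i
      fin_cases i
      · exact h2
      · exact h3
    have halg : IsAlgebraic K (xc P) := ⟨B, hBne, by rw [Polynomial.aeval_def]; exact hB0⟩
    exact halg.tower_top L
  · -- monic equation over `L`
    rw [xRep_of_ne _ hQ] at hA hB
    simp only [Matrix.cons_val_zero, Matrix.cons_val_one, mul_one] at hA hB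
    set c : L := ⟨xc (m • P), h⟩ with hc
    set p : Polynomial L := A.map (algebraMap K L) - Polynomial.C c * B.map (algebraMap K L) with hp
    have hcomp : (algebraMap L Ω).comp (algebraMap K L) = algebraMap K Ω :=
      (IsScalarTower.algebraMap_eq K L Ω).symm
    have hpe : Polynomial.aeval (xc P) p = 0 := by
      rw [hp, map_sub, map_mul, Polynomial.aeval_C, Polynomial.aeval_def, Polynomial.aeval_def,
        Polynomial.eval₂_map, Polynomial.eval₂_map, hcomp, hA, hB]
      have h1 : algebraMap L Ω c = xc (m • P) := rfl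
      rw [h1]
      ring
    have hpm : p ≠ 0 := by
      intro h0
      have h1 : p.coeff (m ^ 2) = 1 := by
        rw [hp, Polynomial.coeff_sub, Polynomial.coeff_C_mul, Polynomial.coeff_map,
          Polynomial.coeff_map, Polynomial.coeff_eq_zero_of_degree_lt hAB.degB, map_zero, mul_zero,
          sub_zero, ← hAB.degA, hAB.monic.coeff_natDegree, map_one]
      rw [h0, Polynomial.coeff_zero] at h1
      exact zero_ne_one h1
    exact ⟨p, hpm, hpe⟩

theorem div_int {K Ω : Type} [Field K] [Field Ω] [DecidableEq Ω] [Algebra K Ω]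
    [IsAlgClosed Ω] (W : Affine K) [W.IsElliptic] (W' : Affine Ω) (hW : W' = W.map (algebraMap K Ω))
    (L : IntermediateField K Ω) (hL : ∀ x : Ω, IsAlgebraic L x → x ∈ L) (k : ℤ) (P : W'.Point)
    (hk : k ≠ 0) (h : xc (k • P) ∈ L) : xc P ∈ L := by
  rcases Int.natAbs_eq k with h1 | h1
  · rw [h1, natCast_zsmul] at h
    exact div_nat W W' hW L hL k.natAbs (Int.natAbs_ne_zero.mpr hk) P h
  · rw [h1, neg_smul, natCast_zsmul, xc_neg'] at h
    exact div_nat W W' hW L hL k.natAbs (Int.natAbs_ne_zero.mpr hk) P h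

/-- **Packet IND.** -/
theorem gIND : G_IND := by
  intro K Ω _ _ _ _ _ W _ W' hW
  refine ⟨?_, fun L hL k P hk h => div_int W W' hW L hL k P hk h⟩
  intro n z hz hind m hm hsum
  obtain ⟨i, hi⟩ : ∃ i, m i ≠ 0 := by
    by_contra hcon
    push Not at hcon
    exact hm (funext hcon)
  set S : Set Ω := (fun i => xc (z i)) '' {i}ᶜ with hS
  obtain ⟨H, hH⟩ := Pool.Agent.Helper45.RO.gGRP K Ω (LL K S) (LL_closed S) W W' hW
  have hj : ∀ j, j ≠ i → z j ∈ H := by
    intro j hji
    rw [hH, mem_LL]
    exact isAlgebraic_algebraMap (⟨xc (z j), IntermediateField.subset_adjoin K S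
      ⟨j, hji, rfl⟩⟩ : IntermediateField.adjoin K S)
  have hi2 : m i • z i ∈ H := by
    have h1 : m i • z i = - ∑ j ∈ Finset.univ.erase i, m j • z j := by
      rw [eq_neg_iff_add_eq_zero]
      exact (Finset.add_sum_erase Finset.univ (fun j => m j • z j) (Finset.mem_univ i)).trans hsum
    rw [h1]
    refine H.neg_mem (H.sum_mem fun j hj' => H.zsmul_mem (hj j ?_) _)
    exact (Finset.mem_erase.mp hj').1
  have hi3 : xc (z i) ∈ LL K S :=
    div_int W W' hW (LL K S) (LL_closed S) (m i) (z i) hi ((hH _).mp hi2)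
  rw [mem_LL] at hi3
  have h4 : IsAlgebraic (Algebra.adjoin K S) (xc (z i)) :=
    IntermediateField.isAlgebraic_adjoin_iff.mp hi3
  exact hind.transcendental_adjoin (s := {i}ᶜ) (i := i) (by simp) h4

end Pool.Agent.Helper31.UN
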